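import Mathlib
import Pool.Agent.V11146.Frust

set_option autoImplicit false

namespace Pool.Agent.Results.MP_5df1f6_co.FewEdges

open Finset SimpleGraph Pool.Agent.V11146.Frust

/-- `a_t = t (n - t - 1)`. -/
def a (n t : ℕ) : ℤ := (t : ℤ) * ((n : ℤ) - t - 1)

/-- `b_t = t (n - 2)`. -/
def b (n t : ℕ) : ℤ := (t : ℤ) * ((n : ℤ) - 2)

/-- `S_t^{(n)}`: the numbers of frustrated triples of `n`-vertex graphs with `t` edges. -/
def S (n t : ℕ) : Set ℤ :=
  {x : ℤ | ∃ G : SimpleGraph (Fin n), G.edgeSet.ncard = t ∧ (frustrated G : ℤ) = x}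

/-- `c` lies in one of the gaps
`C(t-j-1,2) + C(j+2,2) < c < C(t-j,2)`, `0 ≤ j < t`. -/
def InGap (t c : ℕ) : Prop :=
  ∃ j : ℕ, j < t ∧ (t - j - 1).choose 2 + (j + 2).choose 2 < c ∧ c < (t - j).choose 2

lemma arith_small {w j c cu cu1 cj : ℕ} (f3 : 2 * cu = (w + 1) * w)
    (f4 : 2 * cu1 = (w + 1 + 1) * (w + 1)) (f5 : 2 * cj = (j + 2) * (j + 1))
    (h1 : cu + cj < c) (h2 : c < cu1) (g1 : c ≤ (w + 1 + j + 1) * j) : False := by
  zify at *
  have a1 : 2 * ((w:ℤ) + 1) ≥ (j:ℤ)^2 + 3 * j + 6 := by nlinarith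
  have a2 : ((w:ℤ) + 1) * ((w:ℤ) + 1 - 1 - 2 * j) < (j:ℤ)^2 - j - 2 := by nlinarith
  have hj0 : (0:ℤ) ≤ j := by positivity
  have hjj : (0:ℤ) ≤ (j:ℤ)^2 - j := by
    rcases Nat.eq_zero_or_pos j with h0 | h0
    · subst h0; simp
    · have : (1:ℤ) ≤ j := by exact_mod_cast h0
      nlinarith
  have a3 : (3:ℤ) ≤ (w:ℤ) + 1 := by nlinarith
  have a4 : 0 ≤ ((w:ℤ) + 1 - 1 - 2 * j) := by nlinarith
  have a5 : 3 * ((w:ℤ) + 1 - 1 - 2 * j) ≤ ((w:ℤ) + 1) * ((w:ℤ) + 1 - 1 - 2 * j) :=
    mul_le_mul_of_nonneg_right a3 a4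
  nlinarith

lemma arith_mid {j p q c cu cj cE cA : ℕ}
    (f3 : 2 * cu = (j + 1 + p + q + 1) * (j + 1 + p + q)) (f5 : 2 * cj = (j + 2) * (j + 1))
    (g1 : 2 * cE = (j + 1 + p + 1) * (j + 1 + p)) (g3 : 2 * cA + (j + 1 + q) = (j + 1 + q) * (j + 1 + q))
    (h1 : cu + cj < c) (hup : c ≤ cE + (j + 1 + q) + cA) : False := by
  zify at *
  have hp : (0:ℤ) ≤ p := by positivity
  have hq : (0:ℤ) ≤ q := by positivity
  nlinarith [mul_nonneg hp hq]

lemma no_gap {V : Type} [Fintype V] [DecidableEq V] (G : SimpleGraph V) [DecidableRel G.Adj]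
    {t : ℕ} (ht : G.edgeFinset.card = t) : ¬ InGap t (cher G).card := by
  rintro ⟨j, hj, h1, h2⟩
  have hV : Nonempty V := by
    by_contra hV
    rw [not_nonempty_iff] at hV
    have : G.edgeFinset = ∅ := by
      ext e
      induction e with
      | _ x y => exact (hV.false x).elim
    rw [this] at ht
    simp at ht
    omega
  obtain ⟨v, hv⟩ := G.exists_maximal_degree_vertex
  set D := G.degree v with hD
  have hmax : ∀ x, G.degree x ≤ D := by
    intro x; rw [← hv]; exact G.degree_le_maxDegree x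
  have haw := card_away G v
  have hlow := choose_le_cher G v
  have hup := cher_le G v
  have hup2 := cher_le_maxdeg G hmax
  rw [← hD] at haw hlow hup
  rw [ht] at haw hup2
  set A := (away G v).card with hA
  have e1 := two_choose (t - j - 1)
  have e2 := two_choose (j + 2)
  have e3 := two_choose (t - j)
  rcases Nat.lt_or_ge D (t - j) with h | h
  · obtain ⟨u, hu⟩ : ∃ u, t = u + j + 1 := ⟨t - j - 1, by omega⟩
    have f1 : t - j - 1 = u := by omega
    have f2 : t - j = u + 1 := by omega
    rw [f1] at h1 e1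
    rw [f2] at h2 e3 h
    have f3 : 2 * u.choose 2 = u * (u - 1) := two_choose u
    have f4 : 2 * (u + 1).choose 2 = (u + 1) * u := two_choose (u+1)
    have f5 : 2 * (j + 2).choose 2 = (j + 2) * (j + 1) := two_choose (j + 2)
    have hu1 : 1 ≤ u := by
      rcases Nat.eq_zero_or_pos u with h0 | h0
      · subst h0; simp at h2
      · exact h0
    obtain ⟨w, rfl⟩ : ∃ w, u = w + 1 := ⟨u - 1, by omega⟩
    simp only [Nat.add_sub_cancel] at f3
    rcases Nat.lt_or_ge D (j + 2) with h' | h'
    · -- small maximum degree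
      have g1 : (cher G).card ≤ t * j := hup2.trans (Nat.mul_le_mul_left _ (by omega))
      rw [hu] at g1
      exact arith_small f3 f4 f5 h1 h2 g1
    · have g1 := two_choose D
      have g2 := two_choose A
      obtain ⟨E, hE⟩ : ∃ E, D = E + 1 := ⟨D - 1, by omega⟩
      rw [hE] at g1 hup
      have g3 : 2 * A.choose 2 + A = A * A := by
        rw [g2]
        rcases Nat.eq_zero_or_pos A with h0 | h0
        · rw [h0]
        · obtain ⟨B, hB⟩ : ∃ B, A = B + 1 := ⟨A - 1, by omega⟩
          rw [hB]; simp only [Nat.add_sub_cancel]; ring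
      simp only [Nat.add_sub_cancel] at g1
      obtain ⟨p, hp⟩ : ∃ p, E = j + 1 + p := ⟨E - (j + 1), by omega⟩
      obtain ⟨q, hq⟩ : ∃ q, w + 1 = E + 1 + q := ⟨w + 1 - (E + 1), by omega⟩
      have hA' : A = j + 1 + q := by omega
      have hw : w = j + 1 + p + q := by omega
      rw [hp] at g1 hup
      rw [hA'] at g3 hup
      rw [hw] at f3 h1
      exact arith_mid f3 f5 g1 g3 h1 hup
  · have := Nat.choose_le_choose 2 h
    omega

/-- Arithmetic: a number outside the gaps has the required form. -/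
lemma arith {t c : ℕ} (hc : c ≤ t.choose 2) (hgap : ¬ InGap t c) :
    ∃ D k i : ℕ, D + k ≤ t ∧ i ≤ D ∧ i ≤ k ∧ c = D.choose 2 + k.choose 2 + i := by
  -- greatest D with C(D,2) ≤ c, D ≤ t
  have hex : ∃ D, D ≤ t ∧ D.choose 2 ≤ c ∧ (D = t ∨ c < (D+1).choose 2) := by
    by_contra hcon
    push Not at hcon
    have : ∀ D, D ≤ t → D.choose 2 ≤ c := by
      intro D
      induction D with
      | zero => intro _; simp
      | succ D ih =>
        intro h
        exact (hcon D (by omega) (ih (by omega))).2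
    exact (hcon t le_rfl (this t le_rfl)).1 rfl
  obtain ⟨D, hDt, hD1, hD2⟩ := hex
  rcases hD2 with rfl | hD2
  · exact ⟨D, 0, 0, by omega, by omega, by omega, by simp; omega⟩
  · have hs : (D+1).choose 2 = D.choose 2 + D := by
      rw [Nat.choose_succ_succ' D 1]
      simp [add_comm]
    obtain ⟨r, hr⟩ : ∃ r, c = D.choose 2 + r := ⟨c - D.choose 2, by omega⟩
    have hrD : r < D := by omega
    have hrj : r ≤ (t - D + 1).choose 2 := by
      by_contra hcon
      push Not at hcon
      apply hgap
      refine ⟨t - D - 1, ?_, ?_, ?_⟩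
      · omega
      · rcases Nat.eq_or_lt_of_le hDt with h | h
        · subst h; omega
        · have e1 : t - (t - D - 1) - 1 = D := by omega
          have e2 : t - D - 1 + 2 = t - D + 1 := by omega
          rw [e1, e2]; omega
      · rcases Nat.eq_or_lt_of_le hDt with h | h
        · subst h; omega
        · have e1 : t - (t - D - 1) = D + 1 := by omega
          rw [e1]; exact hD2
    -- greatest k with C(k,2) ≤ r
    have hex : ∃ k, k ≤ t - D ∧ k.choose 2 ≤ r ∧ (k = t - D ∨ r < (k+1).choose 2) := by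
      by_contra hcon
      push Not at hcon
      have : ∀ k, k ≤ t - D → k.choose 2 ≤ r := by
        intro k
        induction k with
        | zero => intro _; simp
        | succ k ih =>
          intro h
          exact (hcon k (by omega) (ih (by omega))).2
      exact (hcon (t - D) le_rfl (this (t - D) le_rfl)).1 rfl
    obtain ⟨k, hk, hk1, hk2⟩ := hex
    have hs2 : (k+1).choose 2 = k.choose 2 + k := by
      rw [Nat.choose_succ_succ' k 1]
      simp [add_comm]
    have hle : r ≤ k.choose 2 + k := by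
      rcases hk2 with h | h
      · rw [← h] at hrj; omega
      · omega
    exact ⟨D, k, r - k.choose 2, by omega, by omega, by omega, by omega⟩

/-- The construction: two stars sharing `i` leaves, and a matching with `m` edges. -/
def con (p m D k i : ℕ) : SimpleGraph (Bool ⊕ (Fin p ⊕ (Fin m × Bool))) where
  Adj x y := match x, y with
    | Sum.inl s, Sum.inr (Sum.inl y) =>
        if s then y.val < D else D - i ≤ y.val ∧ y.val < D - i + k
    | Sum.inr (Sum.inl y), Sum.inl s =>
        if s then y.val < D else D - i ≤ y.val ∧ y.val < D - i + k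
    | Sum.inr (Sum.inr y), Sum.inr (Sum.inr z) => y.1 = z.1 ∧ y.2 ≠ z.2
    | _, _ => False
  symm := ⟨by
    rintro (x | x | x) (y | y | y) h
    · exact h
    · exact h
    · exact h
    · exact h
    · exact h
    · exact h
    · exact h
    · exact h
    · exact ⟨h.1.symm, h.2.symm⟩⟩
  loopless := ⟨by
    rintro (x | x | x) h
    · exact h
    · exact h
    · exact h.2 rfl⟩

lemma sum_ind (p u v : ℕ) (_huv : u ≤ v) (hvp : v ≤ p) :
    ∑ y : Fin p, (if u ≤ y.val ∧ y.val < v then 1 else 0) = v - u := by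
  rw [Fin.sum_univ_eq_sum_range (fun y => if u ≤ y ∧ y < v then 1 else 0) p, ← card_filter]
  have : (range p).filter (fun y => u ≤ y ∧ y < v) = Ico u v := by
    ext y; simp; omega
  rw [this, Nat.card_Ico]

lemma degree_eq_sum {V : Type} [Fintype V] (G : SimpleGraph V) [DecidableRel G.Adj] (x : V) :
    G.degree x = ∑ y, (if G.Adj x y then 1 else 0) := by
  rw [← card_neighborFinset_eq_degree, neighborFinset_eq_filter, card_filter]

lemma con_degree (p m D k i : ℕ) (_hi : i ≤ D) (hD : D ≤ p) (hk : D - i + k ≤ p)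
    [DecidableRel (con p m D k i).Adj] :
    (con p m D k i).degree (Sum.inl true) = D ∧ (con p m D k i).degree (Sum.inl false) = k ∧
    (∀ y : Fin p, (con p m D k i).degree (Sum.inr (Sum.inl y)) =
      (if 0 ≤ y.val ∧ y.val < D then 1 else 0) +
        (if D - i ≤ y.val ∧ y.val < D - i + k then 1 else 0)) ∧
    (∀ z : Fin m × Bool, (con p m D k i).degree (Sum.inr (Sum.inr z)) = 1) := by
  refine ⟨?_, ?_, ?_, ?_⟩
  · rw [degree_eq_sum, Fintype.sum_sum_type, Fintype.sum_sum_type]
    simp only [con, if_true, if_false, sum_const_zero, zero_add, add_zero]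
    have := sum_ind p 0 D (by omega) hD
    simpa using this
  · rw [degree_eq_sum, Fintype.sum_sum_type, Fintype.sum_sum_type]
    simp only [con, Bool.false_eq_true, if_false, sum_const_zero, zero_add, add_zero]
    have := sum_ind p (D - i) (D - i + k) (by omega) hk
    rw [this]; omega
  · intro y
    rw [degree_eq_sum, Fintype.sum_sum_type, Fintype.sum_sum_type]
    simp only [con, if_false, sum_const_zero, zero_add, add_zero]
    rw [Fintype.sum_bool]
    simp
  · rintro ⟨z, s⟩
    rw [degree_eq_sum, Fintype.sum_sum_type, Fintype.sum_sum_type]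
    simp only [con, if_false, sum_const_zero, zero_add, add_zero]
    rw [Finset.sum_eq_single (z, !s)]
    · simp
    · rintro ⟨z', s'⟩ _ h
      by_cases h1 : z = z'
      · subst h1
        have : s' = s := by
          cases s <;> cases s' <;> simp_all
        simp [this]
      · simp [h1]
    · intro h; exact absurd (mem_univ _) h

lemma con_trifree (p m D k i : ℕ) (x y z : Bool ⊕ (Fin p ⊕ (Fin m × Bool)))
    (h1 : (con p m D k i).Adj x y) (h2 : (con p m D k i).Adj x z) :
    ¬ (con p m D k i).Adj y z := by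
  intro h3
  rcases x with x | x | x <;> rcases y with y | y | y <;> rcases z with z | z | z <;>
    simp only [con] at h1 h2 h3
  obtain ⟨_, a1⟩ := h1
  obtain ⟨_, a2⟩ := h2
  obtain ⟨_, a3⟩ := h3
  cases hx : x.2 <;> cases hy : y.2 <;> cases hz : z.2 <;> simp_all

lemma construct {n t D k i : ℕ} (hn : 2 * t + 2 ≤ n) (hDk : D + k ≤ t) (hiD : i ≤ D)
    (hik : i ≤ k) : ∃ G : SimpleGraph (Fin n), G.edgeSet.ncard = t ∧
      frustrated G + 2 * (D.choose 2 + k.choose 2 + i) = t * (n - 2) := by
  classical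
  set m := t - D - k with hm
  set p := n - 2 - 2 * m with hp
  obtain ⟨e⟩ : Nonempty (Fin n ≃ (Bool ⊕ (Fin p ⊕ (Fin m × Bool)))) := by
    refine ⟨(Fintype.equivFinOfCardEq ?_).symm⟩
    simp only [Fintype.card_sum, Fintype.card_bool, Fintype.card_fin, Fintype.card_prod]
    omega
  obtain ⟨d1, d2, d3, d4⟩ := con_degree p m D k i hiD (by omega) (by omega)
  set G := (con p m D k i).comap e with hG
  let φ : G ≃g con p m D k i := SimpleGraph.Iso.comap e (con p m D k i)
  have hdeg : ∀ x, G.degree x = (con p m D k i).degree (e x) := by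
    intro x
    have := φ.degree_eq x
    rw [← this]
    rfl
  have hsum1 : ∑ x, G.degree x = 2 * t := by
    simp only [hdeg]
    rw [Equiv.sum_comp e (fun y => (con p m D k i).degree y), Fintype.sum_sum_type,
      Fintype.sum_sum_type, Fintype.sum_bool, d1, d2]
    simp only [d3, d4, sum_add_distrib]
    rw [sum_ind p 0 D (by omega) (by omega), sum_ind p (D - i) (D - i + k) (by omega) (by omega)]
    simp only [sum_const, card_univ, Fintype.card_prod, Fintype.card_fin, Fintype.card_bool,
      smul_eq_mul, mul_one]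
    omega
  have hE : G.edgeFinset.card = t := by
    have := G.sum_degrees_eq_twice_card_edges
    omega
  have hsum2 : ∑ x, (G.degree x).choose 2 = D.choose 2 + k.choose 2 + i := by
    simp only [hdeg]
    rw [Equiv.sum_comp e (fun y => ((con p m D k i).degree y).choose 2), Fintype.sum_sum_type,
      Fintype.sum_sum_type, Fintype.sum_bool, d1, d2]
    simp only [d3, d4]
    have : ∀ y : Fin p, ((if 0 ≤ y.val ∧ y.val < D then 1 else 0) +
        (if D - i ≤ y.val ∧ y.val < D - i + k then 1 else 0) : ℕ).choose 2 =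
        if D - i ≤ y.val ∧ y.val < D then 1 else 0 := by
      intro y
      split_ifs <;> first | rfl | omega
    simp only [this]
    rw [sum_ind p (D - i) D (by omega) (by omega)]
    simp
    omega
  refine ⟨G, ?_, ?_⟩
  · rw [← hE, ← Set.ncard_coe_finset]
    simp
  · have h1 := frustrated_add G
    have h2 := cher_eq_sum G (by
      intro x y z hxy hxz hyz
      exact con_trifree p m D k i (e x) (e y) (e z) hxy hxz hyz)
    rw [hE, h2, hsum2] at h1
    simpa using h1

/-- The general determination: for all `n ≥ 2t+2`. -/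
lemma general {n t : ℕ} (hn : 2 * t + 2 ≤ n) (x : ℤ) :
    x ∈ S n t ↔ ∃ c : ℕ, c ≤ t.choose 2 ∧ ¬ InGap t c ∧ x = b n t - 2 * c := by
  classical
  constructor
  · rintro ⟨G, hG, rfl⟩
    have hE : G.edgeFinset.card = t := by
      rw [← hG, ← Set.ncard_coe_finset]
      simp
    refine ⟨(cher G).card, ?_, no_gap G hE, ?_⟩
    · have h1 := cher_le_sum G
      rcases Nat.eq_zero_or_pos t with h0 | h0
      · have h2 := cher_le_maxdeg G (D := Fintype.card (Fin n))
          (fun x => (G.degree_lt_card_verts x).le)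
        rw [hE, h0] at h2
        rw [h0]; simpa using h2
      · have hne : Nonempty (Fin n) := ⟨⟨0, by omega⟩⟩
        obtain ⟨v, hv⟩ := G.exists_maximal_degree_vertex
        have hup := cher_le G v
        have haw := card_away G v
        have e1 := two_choose (G.degree v)
        have e2 := two_choose (away G v).card
        have e3 := two_choose t
        rcases Nat.eq_zero_or_pos (G.degree v) with h1 | h1
        · have h2 := cher_le_maxdeg G (D := G.maxDegree) (fun x => G.degree_le_maxDegree x)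
          rw [hv, h1, Nat.zero_sub, Nat.mul_zero] at h2
          omega
        · rw [hE] at haw
          obtain ⟨d, hd⟩ : ∃ d, G.degree v = d + 1 := ⟨G.degree v - 1, by omega⟩
          set A := (away G v).card with hA
          rw [hd] at hup e1
          have ht : t = A + d + 1 := by omega
          have g3 : 2 * A.choose 2 + A = A * A := by
            rw [e2]
            rcases Nat.eq_zero_or_pos A with h0 | h0
            · rw [h0]
            · obtain ⟨B, hB⟩ : ∃ B, A = B + 1 := ⟨A - 1, by omega⟩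
              rw [hB]; simp only [Nat.add_sub_cancel]; ring
          have e4 : 2 * t.choose 2 = (A + d + 1) * (A + d) := by
            rw [e3, ht]; simp
          simp only [Nat.add_sub_cancel] at e1
          nlinarith
    · have := frustrated_add G
      rw [hE, Fintype.card_fin] at this
      have h2 : ((frustrated G : ℤ)) + 2 * ((cher G).card : ℤ) = (t : ℤ) * ((n : ℤ) - 2) := by
        have h3 : ((n - 2 : ℕ) : ℤ) = (n : ℤ) - 2 := by
          rw [Nat.cast_sub (by omega)]; norm_num
        rw [← h3]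
        exact_mod_cast this
      unfold b
      linarith
  · rintro ⟨c, hc, hgap, rfl⟩
    obtain ⟨D, k, i, hDk, hiD, hik, rfl⟩ := arith hc hgap
    obtain ⟨G, hG, h⟩ := construct hn hDk hiD hik
    refine ⟨G, hG, ?_⟩
    have h3 : ((n - 2 : ℕ) : ℤ) = (n : ℤ) - 2 := by
      rw [Nat.cast_sub (by omega)]; norm_num
    have h2 : ((frustrated G : ℤ)) + 2 * ((D.choose 2 + k.choose 2 + i : ℕ) : ℤ) =
        (t : ℤ) * ((n : ℤ) - 2) := by
      rw [← h3]
      exact_mod_cast h
    unfold b
    linarith

/-- For all `n ≥ 2t+2` (in particular whenever `t(t+1) < n-2`, i.e. `t ≤ t_max`), the integers of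
`[a_t,b_t]` missing from `S_t` are exactly those of the wrong parity and the numbers `b_t - 2c`
with `C(t-j-1,2) + C(j+2,2) < c < C(t-j,2)` for some `0 ≤ j < t`. -/
theorem result :
    (∀ n t : ℕ, 2 * t + 2 ≤ n →
      Set.Icc (a n t) (b n t) \ S n t =
        {x : ℤ | x ∈ Set.Icc (a n t) (b n t) ∧ (¬ Even (x - a n t) ∨
          ∃ j c : ℕ, j < t ∧ (t - j - 1).choose 2 + (j + 2).choose 2 < c ∧
            c < (t - j).choose 2 ∧ x = b n t - 2 * c)}) ∧
    (∀ n t : ℕ, 3 ≤ n → (t : ℤ) * (t + 1) < (n : ℤ) - 2 →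
      Set.Icc (a n t) (b n t) \ S n t =
        {x : ℤ | x ∈ Set.Icc (a n t) (b n t) ∧ (¬ Even (x - a n t) ∨
          ∃ j c : ℕ, j < t ∧ (t - j - 1).choose 2 + (j + 2).choose 2 < c ∧
            c < (t - j).choose 2 ∧ x = b n t - 2 * c)}) := by
  have main : ∀ n t : ℕ, 2 * t + 2 ≤ n →
      Set.Icc (a n t) (b n t) \ S n t =
        {x : ℤ | x ∈ Set.Icc (a n t) (b n t) ∧ (¬ Even (x - a n t) ∨
          ∃ j c : ℕ, j < t ∧ (t - j - 1).choose 2 + (j + 2).choose 2 < c ∧
            c < (t - j).choose 2 ∧ x = b n t - 2 * c)} := by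
    intro n t hn
    have hab : b n t = a n t + 2 * ((t.choose 2 : ℕ) : ℤ) := by
      have h1 : 2 * ((t.choose 2 : ℕ) : ℤ) = (t : ℤ) * ((t : ℤ) - 1) := by
        rcases Nat.eq_zero_or_pos t with h0 | h0
        · subst h0; simp
        · have := two_choose t
          have h3 : ((t - 1 : ℕ) : ℤ) = (t : ℤ) - 1 := by
            rw [Nat.cast_sub h0]; norm_num
          rw [← h3]
          exact_mod_cast this
      rw [h1]
      unfold a b
      ring
    ext x
    simp only [Set.mem_sdiff, Set.mem_ofPred_eq]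
    constructor
    · rintro ⟨hx, hxS⟩
      refine ⟨hx, ?_⟩
      by_contra hcon
      push Not at hcon
      obtain ⟨h1, h2⟩ := hcon
      apply hxS
      rw [general hn]
      obtain ⟨hxa, hxb⟩ := hx
      obtain ⟨r, hr⟩ := h1
      have hr0 : 0 ≤ r := by omega
      have hr1 : r ≤ ((t.choose 2 : ℕ) : ℤ) := by omega
      obtain ⟨c, hc⟩ : ∃ c : ℕ, (c : ℤ) = ((t.choose 2 : ℕ) : ℤ) - r :=
        ⟨(((t.choose 2 : ℕ) : ℤ) - r).toNat, by rw [Int.toNat_of_nonneg]; omega⟩
      refine ⟨c, by omega, ?_, by omega⟩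
      rintro ⟨j, hj, h3, h4⟩
      exact h2 j c hj h3 h4 (by omega)
    · rintro ⟨hx, h⟩
      refine ⟨hx, ?_⟩
      rw [general hn]
      rintro ⟨c, hc, hgap, rfl⟩
      rcases h with h | ⟨j, c', hj, h1, h2, h3⟩
      · apply h
        rw [hab]
        refine ⟨((t.choose 2 : ℕ) : ℤ) - c, by ring⟩
      · have : c = c' := by omega
        subst this
        exact hgap ⟨j, hj, h1, h2⟩
  refine ⟨main, ?_⟩
  intro n t _ h
  apply main
  have h1 : (t : ℤ) * (t + 1) = t * t + t := by ring
  have h2 : 0 ≤ (t : ℤ) := by positivity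
  have h3 : 2 * (t : ℤ) + 2 ≤ n := by
    nlinarith [sq_nonneg ((t : ℤ) - 1)]
  exact_mod_cast h3

end Pool.Agent.Results.MP_5df1f6_co.FewEdges
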